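import Pool.Agent.H37.MT.RankOne

/-!
# Module CH of the board of helper48 (MP_c80a4f_an): chains of length three
-/

set_option linter.unusedSimpArgs false

open InnerProductSpace Filter Topology
open scoped ComplexConjugate

namespace Pool.Agent.H37.MT

open Pool.Agent.H48.MT

theorem unit_conj {a : ℂ} (ha : a ≠ 0) : conj (a / (‖a‖ : ℂ)) * (a / (‖a‖ : ℂ)) = 1 := by
  have hn : (‖a‖ : ℂ) ≠ 0 := by exact_mod_cast (norm_pos_iff.2 ha).ne'
  have hcc : conj a * a = (‖a‖ : ℂ) * (‖a‖ : ℂ) := by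
    rw [mul_comm, Complex.mul_conj, Complex.normSq_eq_norm_sq]
    push_cast
    ring
  rw [map_div₀, Complex.conj_ofReal, div_mul_div_comm, hcc, div_self (mul_ne_zero hn hn)]

/-- The module CH. -/
theorem ch (h2 : T_PT2) (h4 : T_PT4) (h6 : T_PT6) (h7 : T_PT7) : T_CH := by
  intro H _ _ _ x y z hx hy hz hxy hyz hxz a b ha hb
  have hyx : inner ℂ y x = (0 : ℂ) := inner_eq_zero_symm.1 hxy
  have hzy : inner ℂ z y = (0 : ℂ) := inner_eq_zero_symm.1 hyz
  have hzx : inner ℂ z x = (0 : ℂ) := inner_eq_zero_symm.1 hxz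
  have hxx := inner_unit hx
  have hyy := inner_unit hy
  have hzz := inner_unit hz
  have han : (‖a‖ : ℂ) ≠ 0 := by exact_mod_cast (norm_pos_iff.2 ha).ne'
  have hbn : (‖b‖ : ℂ) ≠ 0 := by exact_mod_cast (norm_pos_iff.2 hb).ne'
  set P : H →L[ℂ] H := (‖a‖ : ℂ) • ro y y + (‖b‖ : ℂ) • ro z z with hP
  set α : ℂ := a / (‖a‖ : ℂ) with hα
  set β : ℂ := b / (‖b‖ : ℂ) with hβ
  have haα : α * (‖a‖ : ℂ) = a := div_mul_cancel₀ _ han
  have hbβ : β * (‖b‖ : ℂ) = b := div_mul_cancel₀ _ hbn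
  have hα1 : conj α * α = 1 := unit_conj ha
  have hβ1 : conj β * β = 1 := unit_conj hb
  set V : H →L[ℂ] H := α • ro x y + β • ro y z with hV
  set T : H →L[ℂ] H := a • ro x y + b • ro y z with hT
  set E : H →L[ℂ] H := ro y y + ro z z with hE
  have hP0 : 0 ≤ P := add_nonneg (smul_nonneg' (ro_nonneg hy) (norm_nonneg a))
    (smul_nonneg' (ro_nonneg hz) (norm_nonneg b))
  have hVV : star V * V = E := by
    rw [hV, star_add, star_smul, star_smul, star_ro, star_ro]
    simp only [add_mul, mul_add, smul_mul_smul_comm, ro_mul_ro, hxx, hxy, hyx, hyy, zero_smul,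
      smul_zero, one_smul, add_zero, zero_add]
    rw [show star α * α = 1 from hα1, show star β * β = 1 from hβ1, one_smul, one_smul]
  have hVE : V * E = V := by
    rw [hV, hE]
    simp only [add_mul, mul_add, smul_mul_assoc, ro_mul_ro, hyy, hyz, hzy, hzz, zero_smul,
      smul_zero, one_smul, add_zero, zero_add]
  have hVP : V * P = T := by
    rw [hV, hP, hT]
    simp only [add_mul, mul_add, smul_mul_smul_comm, ro_mul_ro, hyy, hyz, hzy, hzz, zero_smul,
      smul_zero, one_smul, add_zero, zero_add, haα, hbβ]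
  have hEP : E * P = P := by
    rw [hE, hP]
    simp only [add_mul, mul_add, mul_smul_comm, ro_mul_ro, hyy, hyz, hzy, hzz, zero_smul,
      smul_zero, one_smul, add_zero, zero_add]
  have hPE : P * E = P := by
    rw [hE, hP]
    simp only [add_mul, mul_add, smul_mul_assoc, ro_mul_ro, hyy, hyz, hzy, hzz, zero_smul,
      smul_zero, one_smul, add_zero, zero_add]
  obtain ⟨k1, k2⟩ := h4 H T V P hP0 hVP.symm (by rw [mul_assoc, hVV, hVE]) (by rw [hVV, hEP])
    (by
      intro w hw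
      have e1 : inner ℂ y (P w) = (‖a‖ : ℂ) * inner ℂ y w := by
        rw [hP]
        simp [ro_apply, hyz, hy]
      have e2 : inner ℂ z (P w) = (‖b‖ : ℂ) * inner ℂ z w := by
        rw [hP]
        simp [ro_apply, hzy, hz]
      rw [hw, inner_zero_right] at e1 e2
      have e3 : inner ℂ y w = (0 : ℂ) := (mul_eq_zero.1 e1.symm).resolve_left han
      have e4 : inner ℂ z w = (0 : ℂ) := (mul_eq_zero.1 e2.symm).resolve_left hbn
      rw [hV]
      simp [ro_apply, e3, e4])
  have hpow : ∀ l : ℝ, 0 < l → P ^ l = ((‖a‖ ^ l : ℝ) : ℂ) • ro y y +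
      ((‖b‖ ^ l : ℝ) : ℂ) • ro z z := by
    intro l hl
    have c := h2 H P hP0
    have hy1 : P ^ l * ro y y = ((‖a‖ ^ l : ℝ) : ℂ) • ro y y := by
      have hsp : IsStarProjection (ro y y : H →L[ℂ] H) :=
        ⟨ro_unit_sq hy, by rw [isSelfAdjoint_iff, star_ro]⟩
      have e1 : P * ro y y = ((‖a‖ : ℝ) : ℂ) • ro y y := by
        rw [hP]
        simp only [add_mul, smul_mul_assoc, ro_mul_ro, hyy, hzy, zero_smul,
          smul_zero, one_smul, add_zero]
      have e2 : ro y y * P = ((‖a‖ : ℝ) : ℂ) • ro y y := by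
        rw [hP]
        simp only [mul_add, mul_smul_comm, ro_mul_ro, hyy, hyz, zero_smul,
          smul_zero, one_smul, add_zero]
      have e3 := ((h6 H (ro y y) hsp).1 P l hP0 (e1.trans e2.symm) hl).1
      rw [← e3, e1, (h7 H).1 y ‖a‖ l hy (norm_nonneg a) hl]
    have hz1 : P ^ l * ro z z = ((‖b‖ ^ l : ℝ) : ℂ) • ro z z := by
      have hsp : IsStarProjection (ro z z : H →L[ℂ] H) :=
        ⟨ro_unit_sq hz, by rw [isSelfAdjoint_iff, star_ro]⟩
      have e1 : P * ro z z = ((‖b‖ : ℝ) : ℂ) • ro z z := by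
        rw [hP]
        simp only [add_mul, smul_mul_assoc, ro_mul_ro, hzz, hyz, zero_smul,
          smul_zero, one_smul, zero_add]
      have e2 : ro z z * P = ((‖b‖ : ℝ) : ℂ) • ro z z := by
        rw [hP]
        simp only [mul_add, mul_smul_comm, ro_mul_ro, hzz, hzy, zero_smul,
          smul_zero, one_smul, zero_add]
      have e3 := ((h6 H (ro z z) hsp).1 P l hP0 (e1.trans e2.symm) hl).1
      rw [← e3, e1, (h7 H).1 z ‖b‖ l hz (norm_nonneg b) hl]
    have hE1 : P ^ l * (E - 1) = 0 := by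
      rw [((c.2.2.2.2.2.2.1 l hl (E - 1)).1), mul_sub, hPE, mul_one, sub_self]
    rw [mul_sub, mul_one, sub_eq_zero] at hE1
    rw [← hE1, hE, mul_add, hy1, hz1]
  refine ⟨k1.symm, k2.symm, ?_, ?_⟩
  · intro l hl hl1
    unfold al
    rw [← k1, ← k2, hpow l hl, hpow (1 - l) (by linarith), hV]
    simp only [add_mul, mul_add, smul_mul_smul_comm, ro_mul_ro, hxx, hyy, hzz, hyx, hxy, hzx, hxz,
      hyz, hzy, zero_smul, smul_zero, one_smul, add_zero, zero_add]
    congr 1
    push_cast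
    ring
  · unfold mean
    rw [← k1, ← k2, smul_smul]
    have hPV : P * V = ((‖a‖ : ℂ) * β) • ro y z := by
      rw [hP, hV]
      simp only [add_mul, mul_add, smul_mul_smul_comm, ro_mul_ro, hxx, hyy, hzz, hyx, hxy, hzx,
        hxz, hyz, hzy, zero_smul, smul_zero, one_smul, add_zero, zero_add]
    rw [hPV]
    norm_num

end Pool.Agent.H37.MT
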