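import Pool.Agent.H48.MT.Targets

/-!
# Module FXP of the board of helper48 (MP_c80a4f_an)
-/

open InnerProductSpace Filter Topology
open scoped ComplexConjugate

namespace Pool.Agent.H37.MT

open Pool.Agent.H48.MT

/-- norming sequences -/
theorem exists_norming {H : Type} [NormedAddCommGroup H] [InnerProductSpace ℂ H]
    (T : H →L[ℂ] H) (hT : 0 < ‖T‖) : ∃ e : ℕ → H, (∀ i, ‖e i‖ = 1) ∧
      Tendsto (fun i => ‖T (e i)‖) atTop (𝓝 ‖T‖) := by
  have h1 : ∀ n : ℕ, ∃ x : H, ‖x‖ = 1 ∧ ‖T‖ - ‖T‖ * (1 / ((n : ℝ) + 1)) ≤ ‖T x‖ := by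
    intro n
    have hn : (0 : ℝ) < 1 / ((n : ℝ) + 1) := by positivity
    have hn1 : (1 : ℝ) / ((n : ℝ) + 1) ≤ 1 := by
      rw [div_le_one (by positivity)]
      have : (0 : ℝ) ≤ n := Nat.cast_nonneg n
      linarith
    obtain ⟨x, hx, hx'⟩ := T.exists_lt_apply_of_lt_opNorm
      (show ‖T‖ - ‖T‖ * (1 / ((n : ℝ) + 1)) < ‖T‖ by nlinarith)
    have h0 : 0 ≤ ‖T‖ - ‖T‖ * (1 / ((n : ℝ) + 1)) := by nlinarith
    have hTx : 0 < ‖T x‖ := lt_of_le_of_lt h0 hx'
    have hxne : x ≠ 0 := by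
      rintro rfl
      rw [map_zero, norm_zero] at hTx
      exact lt_irrefl _ hTx
    have hxn : 0 < ‖x‖ := norm_pos_iff.2 hxne
    refine ⟨((‖x‖⁻¹ : ℝ) : ℂ) • x, ?_, ?_⟩
    · rw [norm_smul, Complex.norm_real, norm_inv, norm_norm, inv_mul_cancel₀ hxn.ne']
    · rw [map_smul, norm_smul, Complex.norm_real, norm_inv, norm_norm]
      refine hx'.le.trans ?_
      have : 1 ≤ ‖x‖⁻¹ := (one_le_inv₀ hxn).2 hx.le
      nlinarith
  choose e he he' using h1
  refine ⟨e, he, ?_⟩
  have hlim : Tendsto (fun n : ℕ => ‖T‖ - ‖T‖ * (1 / ((n : ℝ) + 1))) atTop (𝓝 ‖T‖) := by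
    have h2 := (tendsto_one_div_add_atTop_nhds_zero_nat (𝕜 := ℝ)).const_mul ‖T‖
    have h3 := h2.const_sub ‖T‖
    rwa [mul_zero, sub_zero] at h3
  refine tendsto_of_tendsto_of_tendsto_of_le_of_le hlim tendsto_const_nhds he' ?_
  intro i
  have := T.le_opNorm (e i)
  rwa [he i, mul_one] at this

/-- The module FXP. -/
theorem fxp : T_FXP := by
  intro H _ _ _ L m hL T hT k hk
  by_cases hT0 : T = 0
  · subst hT0
    rw [zero_pow (by omega), norm_zero, zero_pow (by omega)]
  have hr : 0 < ‖T‖ := norm_pos_iff.2 hT0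
  have key : ∀ k : ℕ, ∀ e : ℕ → H, (∀ i, ‖e i‖ = 1) →
      Tendsto (fun i => ‖T (e i)‖) atTop (𝓝 ‖T‖) →
      Tendsto (fun i => ‖(T ^ k) (e i)‖) atTop (𝓝 (‖T‖ ^ k)) := by
    intro k
    induction k with
    | zero =>
      intro e he _
      simp only [pow_zero, ContinuousLinearMap.one_apply, he]
      exact tendsto_const_nhds
    | succ k ih =>
      intro e he h1
      classical
      set f : ℕ → H := fun i => if T (e i) = 0 then e i else ((‖T (e i)‖⁻¹ : ℝ) : ℂ) • T (e i)
        with hf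
      have hfn : ∀ i, ‖f i‖ = 1 := by
        intro i
        simp only [hf]
        split_ifs with h
        · exact he i
        · rw [norm_smul, Complex.norm_real, norm_inv, norm_norm,
            inv_mul_cancel₀ (norm_pos_iff.2 h).ne']
      have h2 := hL.top T hT e he h1
      have h3 : Tendsto (fun i => ‖T (T (e i))‖ / ‖T (e i)‖) atTop (𝓝 ‖T‖) := by
        have h4 := h2.div h1 hr.ne'
        have h5 : ‖T‖ ^ 2 / ‖T‖ = ‖T‖ := by field_simp
        rwa [h5] at h4
      have h6 : ∀ᶠ i in atTop, T (e i) ≠ 0 := by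
        filter_upwards [h1.eventually (lt_mem_nhds hr)] with i hi
        exact norm_pos_iff.1 hi
      have h7 : Tendsto (fun i => ‖T (f i)‖) atTop (𝓝 ‖T‖) := by
        refine h3.congr' ?_
        filter_upwards [h6] with i hi
        simp only [hf]
        rw [if_neg hi, map_smul, norm_smul, Complex.norm_real, norm_inv, norm_norm]
        rw [div_eq_inv_mul]
      have h8 := ih f hfn h7
      have h9 : ∀ i, ‖(T ^ (k + 1)) (e i)‖ = ‖T (e i)‖ * ‖(T ^ k) (f i)‖ := by
        intro i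
        rw [pow_succ]
        change ‖(T ^ k) (T (e i))‖ = _
        simp only [hf]
        split_ifs with h
        · rw [h, map_zero, norm_zero, zero_mul]
        · rw [map_smul, norm_smul, Complex.norm_real, norm_inv, norm_norm, ← mul_assoc,
            mul_inv_cancel₀ (norm_pos_iff.2 h).ne', one_mul]
      simp only [h9]
      rw [pow_succ, mul_comm]
      exact h1.mul h8
  obtain ⟨e, he, he'⟩ := exists_norming T hr
  refine le_antisymm (norm_pow_le' T hk) ?_
  refine le_of_tendsto (key k e he he') (Eventually.of_forall fun i => ?_)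
  have := (T ^ k).le_opNorm (e i)
  rwa [he i, mul_one] at this

end Pool.Agent.H37.MT
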