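import Pool.Agent.H48.MT.Targets

/-!
# Modules PT7 and RK of the board of helper48 (MP_c80a4f_an)
-/

open InnerProductSpace Filter Topology
open scoped ComplexConjugate

namespace Pool.Agent.H37.MT

open Pool.Agent.H48.MT

section

variable {H : Type} [NormedAddCommGroup H] [InnerProductSpace ℂ H] [CompleteSpace H]

theorem pow_proj {p : H →L[ℂ] H} (hp : p * p = p) (h0 : 0 ≤ p) {a : ℝ} (ha : 0 < a) :
    p ^ a = p := by
  rw [CFC.rpow_eq_cfc_real h0]
  have h1 : Set.EqOn (fun x : ℝ => x ^ a) id (spectrum ℝ p) := by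
    intro x hx
    rcases IsIdempotentElem.spectrum_subset ℝ (show IsIdempotentElem p from hp) hx with rfl | rfl
    · simp [Real.zero_rpow ha.ne']
    · simp
  rw [cfc_congr h1, cfc_id ℝ p (IsSelfAdjoint.of_nonneg h0)]

theorem inner_unit {u : H} (hu : ‖u‖ = 1) : inner ℂ u u = (1 : ℂ) := by
  rw [inner_self_eq_norm_sq_to_K, hu]
  simp

theorem ro_unit_sq {u : H} (hu : ‖u‖ = 1) : ro u u * ro u u = ro u u := by
  rw [ro_mul_ro, inner_unit hu, one_smul]

theorem ro_nonneg {u : H} (hu : ‖u‖ = 1) : 0 ≤ ro u u := by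
  have h : star (ro u u) * ro u u = ro u u := by rw [star_ro, ro_unit_sq hu]
  rw [← h]
  exact star_mul_self_nonneg _

theorem smul_nonneg' {P : H →L[ℂ] H} (hP : 0 ≤ P) {r : ℝ} (hr : 0 ≤ r) :
    0 ≤ ((r : ℝ) : ℂ) • P := by
  have h : ((r : ℝ) : ℂ) • P = r • P := (Complex.coe_smul r P)
  rw [h]
  exact smul_nonneg hr hP

end

/-- The module PT7. -/
theorem pt7 (h2 : T_PT2) (h4 : T_PT4) : T_PT7 := by
  intro H _ _ _
  refine ⟨?_, ?_⟩
  · intro u r a hu hr ha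
    have hp := h2 H (ro u u) (ro_nonneg hu)
    rw [hp.2.2.2.2.2.2.2.2.2.2 r a hr ha.le, pow_proj (ro_unit_sq hu) (ro_nonneg hu) ha]
  · intro u v c hu hv hc
    have hcn : (‖c‖ : ℂ) ≠ 0 := by exact_mod_cast (norm_pos_iff.2 hc).ne'
    have hstar : star ((c / (‖c‖ : ℂ)) • ro u v) = (conj c / (‖c‖ : ℂ)) • ro v u := by
      rw [star_smul, star_ro]
      congr 1
      simp
    have hcc : conj c * c = (‖c‖ : ℂ) * (‖c‖ : ℂ) := by
      rw [mul_comm, Complex.mul_conj, Complex.normSq_eq_norm_sq]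
      push_cast
      ring
    have hVV : star ((c / (‖c‖ : ℂ)) • ro u v) * ((c / (‖c‖ : ℂ)) • ro u v) = ro v v := by
      rw [hstar, smul_mul_smul_comm, ro_mul_ro, inner_unit hu, one_smul]
      have h1 : conj c / (‖c‖ : ℂ) * (c / (‖c‖ : ℂ)) = 1 := by
        rw [div_mul_div_comm, hcc, div_self (mul_ne_zero hcn hcn)]
      rw [h1, one_smul]
    have key := h4 H (c • ro u v) ((c / (‖c‖ : ℂ)) • ro u v) ((‖c‖ : ℂ) • ro v v)
      (smul_nonneg' (ro_nonneg hv) (norm_nonneg c)) ?_ ?_ ?_ ?_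
    · exact ⟨key.1.symm, key.2.symm⟩
    · rw [smul_mul_smul_comm, ro_mul_ro, inner_unit hv, one_smul, div_mul_cancel₀ _ hcn]
    · rw [mul_assoc, hVV, smul_mul_assoc, ro_mul_ro, inner_unit hv, one_smul]
    · rw [hVV, mul_smul_comm, ro_unit_sq hv]
    · intro x hx
      have hv0 : v ≠ 0 := by
        rintro rfl
        simp at hv
      simp only [ContinuousLinearMap.smul_apply, ro_apply, smul_eq_zero, hcn, hv0, false_or,
        or_false] at hx
      simp [ro_apply, hx]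

/-- The module RK. -/
theorem rk (h7 : T_PT7) (hL : T_LAM) : T_RK := by
  intro H _ _ _
  obtain ⟨p1, p2⟩ := h7 H
  obtain ⟨l1, l2, l3⟩ := hL H
  have hzero : ∀ a : ℝ, 0 ≤ a → a ≤ 1 → al a (0 : H →L[ℂ] H) = 0 := by
    intro a ha ha'
    have h := (l3 a ha ha').1 0 0
    rwa [zero_smul, zero_smul] at h
  -- the normalised vectors
  have hnorm : ∀ x : H, x ≠ 0 → ∃ u : H, ‖u‖ = 1 ∧ x = ((‖x‖ : ℝ) : ℂ) • u := by
    intro x hx
    have hxn : ‖x‖ ≠ 0 := norm_ne_zero_iff.2 hx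
    refine ⟨((‖x‖⁻¹ : ℝ) : ℂ) • x, ?_, ?_⟩
    · rw [norm_smul, Complex.norm_real, norm_inv, norm_norm, inv_mul_cancel₀ hxn]
    · rw [smul_smul, ← Complex.ofReal_mul, mul_inv_cancel₀ hxn, Complex.ofReal_one, one_smul]
  have hdata : ∀ x y : H, x ≠ 0 → y ≠ 0 → ∃ (u v : H) (c : ℝ), ‖u‖ = 1 ∧ ‖v‖ = 1 ∧ 0 < c ∧
      ro x y = (c : ℂ) • ro u v ∧
      (inner ℂ y x / (‖y‖ : ℂ) ^ 2) • ro y y = ((c : ℂ) * inner ℂ v u) • ro v v := by
    intro x y hx hy
    obtain ⟨u, hu, hxu⟩ := hnorm x hx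
    obtain ⟨v, hv, hyv⟩ := hnorm y hy
    have hx0 : 0 < ‖x‖ := norm_pos_iff.2 hx
    have hy0 : 0 < ‖y‖ := norm_pos_iff.2 hy
    have hy0' : ((‖y‖ : ℝ) : ℂ) ≠ 0 := by exact_mod_cast hy0.ne'
    refine ⟨u, v, ‖x‖ * ‖y‖, hu, hv, mul_pos hx0 hy0, ?_, ?_⟩
    · conv_lhs => rw [hxu, hyv]
      rw [ro_smul_left, ro_smul_right, smul_smul, Complex.conj_ofReal, Complex.ofReal_mul]
    · have h1 : ro y y = ((‖y‖ : ℂ) * ‖y‖) • ro v v := by
        conv_lhs => rw [hyv]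
        rw [ro_smul_left, ro_smul_right, smul_smul, Complex.conj_ofReal]
      have h2 : inner ℂ y x = ((‖y‖ : ℂ) * ‖x‖) * inner ℂ v u := by
        conv_lhs => rw [hxu, hyv]
        rw [inner_smul_left, inner_smul_right, Complex.conj_ofReal]
        ring
      rw [h1, h2, smul_smul]
      congr 1
      rw [Complex.ofReal_mul]
      field_simp
  refine ⟨?_, ?_⟩
  · intro a x y ha ha' hy
    by_cases hx : x = 0
    · subst hx
      rw [ro_zero_left, hzero a ha.le ha'.le, inner_zero_right, zero_div, zero_smul]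
    obtain ⟨u, v, c, hu, hv, hc, h1, h2⟩ := hdata x y hx hy
    have hc' : (c : ℂ) ≠ 0 := by exact_mod_cast hc.ne'
    obtain ⟨q1, q2⟩ := p2 u v (c : ℂ) hu hv hc'
    have hcn : ‖(c : ℂ)‖ = c := by rw [Complex.norm_real, Real.norm_of_nonneg hc.le]
    rw [hcn] at q1 q2
    rw [div_self hc', one_smul] at q2
    rw [h1, h2]
    unfold al
    rw [q1, q2, p1 v c a hv hc.le ha, p1 v c (1 - a) hv hc.le (by linarith)]
    rw [smul_mul_assoc, ro_mul_ro, smul_mul_smul_comm, smul_mul_assoc, ro_mul_ro,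
      inner_unit hv, one_smul, smul_smul]
    have h3 : ((c ^ a : ℝ) : ℂ) * ((c ^ (1 - a) : ℝ) : ℂ) = (c : ℂ) := by
      rw [← Complex.ofReal_mul, ← Real.rpow_add hc, add_sub_cancel, Real.rpow_one]
    congr 1
    linear_combination (inner ℂ v u) * h3
  · intro x y hy
    by_cases hx : x = 0
    · subst hx
      have h1 : mean (0 : H →L[ℂ] H) = 0 := by
        have h0 := (l1 0).2
        rw [hzero 1 zero_le_one le_rfl] at h0
        unfold mean
        rw [← h0, add_zero, smul_zero]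
      rw [ro_zero_left, h1, inner_zero_right, zero_div, zero_smul, add_zero, smul_zero]
    obtain ⟨u, v, c, hu, hv, hc, h1, h2⟩ := hdata x y hx hy
    have hc' : (c : ℂ) ≠ 0 := by exact_mod_cast hc.ne'
    obtain ⟨q1, q2⟩ := p2 u v (c : ℂ) hu hv hc'
    have hcn : ‖(c : ℂ)‖ = c := by rw [Complex.norm_real, Real.norm_of_nonneg hc.le]
    rw [hcn] at q1 q2
    rw [div_self hc', one_smul] at q2
    rw [h2, h1]
    unfold mean
    rw [q1, q2, smul_mul_assoc, ro_mul_ro, smul_smul]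

end Pool.Agent.H37.MT
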