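import Pool.Agent.H48.MT.Targets

/-!
# Module TR of the board of helper48 (MP_c80a4f_an): the trace of finite rank operators
-/

open InnerProductSpace Filter Topology
open scoped ComplexConjugate

namespace Pool.Agent.H37.MT

open Pool.Agent.H48.MT

section

variable {H : Type} [NormedAddCommGroup H] [InnerProductSpace ℂ H]

/-- the restriction of `X` to a subspace containing its range -/
noncomputable def res (X : H →L[ℂ] H) (U : Submodule ℂ H) (hU : ∀ x, X x ∈ U) : U →ₗ[ℂ] U :=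
  (X : H →ₗ[ℂ] H).restrict (fun x _ => hU x)

theorem res_apply (X : H →L[ℂ] H) (U : Submodule ℂ H) (hU : ∀ x, X x ∈ U) (u : U) :
    (res X U hU u : H) = X u := rfl

/-- the trace -/
noncomputable def tra (X : H →L[ℂ] H) : ℂ :=
  LinearMap.trace ℂ (LinearMap.range (X : H →ₗ[ℂ] H))
    (res X (LinearMap.range (X : H →ₗ[ℂ] H)) (fun x => ⟨x, rfl⟩))

theorem tra_eq (X : H →L[ℂ] H) (hX : FiniteDimensional ℂ (LinearMap.range (X : H →ₗ[ℂ] H)))
    (U : Submodule ℂ H) [FiniteDimensional ℂ U] (hU : ∀ x, X x ∈ U) :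
    tra X = LinearMap.trace ℂ U (res X U hU) := by
  unfold tra
  have hle : LinearMap.range (X : H →ₗ[ℂ] H) ≤ U := by
    rintro _ ⟨x, rfl⟩
    exact hU x
  set W := LinearMap.range (X : H →ₗ[ℂ] H) with hW
  let j : W →ₗ[ℂ] U := Submodule.inclusion hle
  let r : U →ₗ[ℂ] W := ((X : H →ₗ[ℂ] H).rangeRestrict).comp U.subtype
  have h1 : res X W (fun x => ⟨x, rfl⟩) = r ∘ₗ j := by
    apply LinearMap.ext
    intro u
    apply Subtype.ext
    rfl
  have h2 : res X U hU = j ∘ₗ r := by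
    apply LinearMap.ext
    intro u
    apply Subtype.ext
    rfl
  rw [h1, h2]
  exact LinearMap.trace_comp_comm' _ _

theorem fr_of_le (X : H →L[ℂ] H) (U : Submodule ℂ H) [FiniteDimensional ℂ U]
    (hU : ∀ x, X x ∈ U) : FiniteDimensional ℂ (LinearMap.range (X : H →ₗ[ℂ] H)) := by
  have hle : LinearMap.range (X : H →ₗ[ℂ] H) ≤ U := by
    rintro _ ⟨x, rfl⟩
    exact hU x
  exact Submodule.finiteDimensional_of_le hle

theorem res_pow (X : H →L[ℂ] H) (U : Submodule ℂ H) (hU : ∀ x, X x ∈ U) (k : ℕ) (u : U) :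
    (((res X U hU) ^ k) u : H) = (X ^ k) u := by
  induction k generalizing u with
  | zero => simp
  | succ k ih =>
    rw [pow_succ, pow_succ]
    change (((res X U hU) ^ k) (res X U hU u) : H) = (X ^ k) (X u)
    rw [ih, res_apply]

end

/-- The module TR. -/
theorem tr : T_TR := by
  intro H _ _ _
  have fadd : ∀ X Y : H →L[ℂ] H, FR X → FR Y → FR (X + Y) := by
    intro X Y hX hY
    unfold FR at hX hY ⊢
    refine fr_of_le _ (LinearMap.range (X : H →ₗ[ℂ] H) ⊔ LinearMap.range (Y : H →ₗ[ℂ] H)) ?_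
    intro x
    exact Submodule.add_mem_sup ⟨x, rfl⟩ ⟨x, rfl⟩
  have fsmul : ∀ (c : ℂ) (X : H →L[ℂ] H), FR X → FR (c • X) := by
    intro c X hX
    unfold FR at hX ⊢
    refine fr_of_le _ (LinearMap.range (X : H →ₗ[ℂ] H)) ?_
    intro x
    exact Submodule.smul_mem _ c ⟨x, rfl⟩
  have fro : ∀ x y : H, FR (ro x y) := by
    intro x y
    unfold FR
    refine fr_of_le _ (Submodule.span ℂ {x}) ?_
    intro z
    exact Submodule.smul_mem _ _ (Submodule.mem_span_singleton_self x)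
  have fmul : ∀ X Y : H →L[ℂ] H, FR X → FR (X * Y) ∧ FR (Y * X) := by
    intro X Y hX
    unfold FR at hX ⊢
    constructor
    · refine fr_of_le _ (LinearMap.range (X : H →ₗ[ℂ] H)) ?_
      intro x
      exact ⟨Y x, rfl⟩
    · refine fr_of_le _ (Submodule.map (Y : H →ₗ[ℂ] H) (LinearMap.range (X : H →ₗ[ℂ] H))) ?_
      intro x
      exact ⟨X x, ⟨x, rfl⟩, rfl⟩
  refine ⟨⟨tra, ?_, ?_, ?_, ?_, ?_⟩, fro, fadd, fsmul, fmul, ?_⟩
  · intro X Y hX hY
    have hXY := fadd X Y hX hY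
    unfold FR at hX hY hXY
    set U := LinearMap.range (X : H →ₗ[ℂ] H) ⊔ LinearMap.range (Y : H →ₗ[ℂ] H) with hU
    have h1 : ∀ x, X x ∈ U := fun x => Submodule.mem_sup_left ⟨x, rfl⟩
    have h2 : ∀ x, Y x ∈ U := fun x => Submodule.mem_sup_right ⟨x, rfl⟩
    have h3 : ∀ x, (X + Y) x ∈ U := fun x => U.add_mem (h1 x) (h2 x)
    rw [tra_eq X hX U h1, tra_eq Y hY U h2, tra_eq (X + Y) hXY U h3, ← map_add]
    rfl
  · intro c X hX
    have hcX := fsmul c X hX
    unfold FR at hX hcX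
    set U := LinearMap.range (X : H →ₗ[ℂ] H) with hU
    have h1 : ∀ x, X x ∈ U := fun x => ⟨x, rfl⟩
    have h2 : ∀ x, (c • X) x ∈ U := fun x => U.smul_mem c (h1 x)
    rw [tra_eq X hX U h1, tra_eq (c • X) hcX U h2, ← smul_eq_mul, ← map_smul]
    rfl
  · intro X Y hX
    obtain ⟨hXY, hYX⟩ := fmul X Y hX
    unfold FR at hX hXY hYX
    set W := LinearMap.range (X : H →ₗ[ℂ] H) with hW
    set W' := Submodule.map (Y : H →ₗ[ℂ] H) W with hW'
    have h1 : ∀ x, (X * Y) x ∈ W := fun x => ⟨Y x, rfl⟩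
    have h2 : ∀ x, (Y * X) x ∈ W' := fun x => ⟨X x, ⟨x, rfl⟩, rfl⟩
    rw [tra_eq (X * Y) hXY W h1, tra_eq (Y * X) hYX W' h2]
    let f : W →ₗ[ℂ] W' := (Y : H →ₗ[ℂ] H).restrict (fun w hw => ⟨w, hw, rfl⟩)
    let g : W' →ₗ[ℂ] W := ((X : H →ₗ[ℂ] H).rangeRestrict).comp W'.subtype
    have h3 : res (X * Y) W h1 = g ∘ₗ f := by
      apply LinearMap.ext
      intro u
      apply Subtype.ext
      rfl
    have h4 : res (Y * X) W' h2 = f ∘ₗ g := by
      apply LinearMap.ext
      intro u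
      apply Subtype.ext
      rfl
    rw [h3, h4]
    exact LinearMap.trace_comp_comm' _ _
  · intro x y
    have hf := fro x y
    unfold FR at hf
    have h1 : ∀ z, ro x y z ∈ Submodule.span ℂ {x} := fun z =>
      Submodule.smul_mem _ _ (Submodule.mem_span_singleton_self x)
    rw [tra_eq (ro x y) hf (Submodule.span ℂ {x}) h1]
    have h2 : res (ro x y) (Submodule.span ℂ {x}) h1 = (inner ℂ y x : ℂ) • LinearMap.id := by
      apply LinearMap.ext
      rintro ⟨u, hu⟩
      obtain ⟨c, rfl⟩ := Submodule.mem_span_singleton.1 hu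
      apply Subtype.ext
      rw [res_apply]
      simp only [ro_apply, inner_smul_right, LinearMap.smul_apply, LinearMap.id_coe, id_eq,
        SetLike.mk_smul_mk, smul_smul]
      rw [mul_comm]
    rw [h2, map_smul, LinearMap.trace_id, smul_eq_mul]
    by_cases hx : x = 0
    · subst hx
      rw [inner_zero_right, zero_mul]
    · rw [finrank_span_singleton hx, Nat.cast_one, mul_one]
  · intro X k hX hk
    unfold FR at hX
    unfold tra
    have hn : IsNilpotent (res X (LinearMap.range (X : H →ₗ[ℂ] H)) (fun x => ⟨x, rfl⟩)) := by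
      refine ⟨k, ?_⟩
      apply LinearMap.ext
      intro u
      apply Subtype.ext
      rw [res_pow, hk]
      rfl
    exact (LinearMap.isNilpotent_trace_of_isNilpotent hn).eq_zero
  · intro X hX
    unfold FR at hX ⊢
    refine fr_of_le _ (Submodule.map ((star X : H →L[ℂ] H) : H →ₗ[ℂ] H)
      (LinearMap.range (X : H →ₗ[ℂ] H))) ?_
    intro z
    obtain ⟨u, hu, w, hw, rfl⟩ :=
      (LinearMap.range (X : H →ₗ[ℂ] H)).exists_add_mem_mem_orthogonal z
    have hw0 : (star X) w = 0 := by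
      apply ext_inner_right ℂ
      intro v
      rw [ContinuousLinearMap.star_eq_adjoint, ContinuousLinearMap.adjoint_inner_left,
        inner_zero_left]
      exact inner_eq_zero_symm.1 (hw (X v) ⟨v, rfl⟩)
    rw [map_add, hw0, add_zero]
    exact ⟨u, hu, rfl⟩

end Pool.Agent.H37.MT
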