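import Pool.Agent.H48.MT.Targets

/-!
# Module ZE of the board of helper48 (MP_c80a4f_an): zeros of the transforms
-/

open InnerProductSpace Filter Topology
open scoped ComplexConjugate

namespace Pool.Agent.H37.MT

open Pool.Agent.H48.MT

/-- The module ZE. -/
theorem ze (h1 : T_PT1) (h2 : T_PT2) : T_ZE := by
  intro H _ _ _
  -- data of the polar decomposition
  have main : ∀ T : H →L[ℂ] H, ∃ P V : H →L[ℂ] H, P = CFC.abs T ∧ V = pol T ∧ T = V * P ∧
      P = star V * T ∧ V * star V * V = V ∧ (star V * V) * P = P ∧ P * (star V * V) = P ∧
      (∀ X : H →L[ℂ] H, P * X = 0 → V * X = 0) ∧ (∀ X : H →L[ℂ] H, X * P = 0 → X * star V = 0) ∧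
      0 ≤ P := by
    intro T
    obtain ⟨a1, a2, a3, a4, a5, a6, a7, a8, a9, a10, a11, a12, a13, a14, a15⟩ := h1 H T
    exact ⟨CFC.abs T, pol T, rfl, rfl, a1, a2, a3, a6, a7, a14, a15, CFC.abs_nonneg T⟩
  have hTT : ∀ T P V : H →L[ℂ] H, T = V * P → (star V * V) * P = P →
      (T * T = 0 ↔ P * V * P = 0) := by
    intro T P V hT hE
    constructor
    · intro h
      have h3 : P * V * P = star V * (T * T) := by
        conv_lhs => rw [← hE]
        rw [hT]
        simp only [mul_assoc]
        rw [← mul_assoc V P, ← mul_assoc (star V), ← mul_assoc (star V)]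
        have h4 : star V * (V * P) = P := by rw [← mul_assoc]; exact hE
        simp only [← mul_assoc]
        simp only [mul_assoc, h4]
      rw [h3, h, mul_zero]
    · intro h
      have h3 : T * T = V * (P * V * P) := by
        rw [hT]
        simp only [mul_assoc]
      rw [h3, h, mul_zero]
  refine ⟨?_, ?_, ?_⟩
  · intro l T hl hl2
    obtain ⟨P, V, hP, hV, b1, b2, b3, b4, b5, b6, b7, b8⟩ := main T
    obtain ⟨c1, c2, c3, c4, c5, c6, c7, c8, c9, c10, c11⟩ := h2 H P b8
    rw [hTT T P V b1 b4]
    have hal : al l T = P ^ l * V * P ^ (1 - l) := by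
      unfold al
      rw [hP, hV]
    have hal' : al (1 - l) T = P ^ (1 - l) * V * P ^ l := by
      unfold al
      rw [hP, hV, sub_sub_cancel]
    constructor
    · intro h
      have hsum : al l T + al (1 - l) T = 0 := by
        unfold mm at h
        rcases smul_eq_zero.1 h with h' | h'
        · norm_num at h'
        · exact h'
      by_cases hμ : l = 1 / 2
      · have h12 : (1 : ℝ) - l = l := by rw [hμ]; norm_num
        rw [hal, hal', h12, ← two_smul ℂ] at hsum
        have h3 : P ^ l * V * P ^ l = 0 := by
          rcases smul_eq_zero.1 hsum with h' | h'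
          · norm_num at h'
          · exact h'
        have h4 := ((c7 l hl (P ^ l * V)).2).1 h3
        rw [mul_assoc] at h4
        have h5 := ((c7 l hl (V * P)).1).1 h4
        rwa [← mul_assoc] at h5
      · have hμ0 : 0 < 1 - 2 * l := by
          rcases lt_or_eq_of_le hl2 with h' | h'
          · linarith
          · exact absurd h' hμ
        set μ := 1 - 2 * l with hμdef
        have e1 : P ^ (1 - l) = P ^ l * P ^ μ := by
          rw [c4 l μ hl hμ0]
          congr 1
          rw [hμdef]; ring
        have e2 : P ^ (1 - l) = P ^ μ * P ^ l := by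
          rw [c4 μ l hμ0 hl]
          congr 1
          rw [hμdef]; ring
        set X := V * P ^ μ + P ^ μ * V with hX
        have h3 : P ^ l * (X * P ^ l) = 0 := by
          have h4 : al l T + al (1 - l) T = P ^ l * (X * P ^ l) := by
            rw [hal, hal', hX]
            conv_lhs => rw [e2]
            rw [← e2]
            conv_lhs =>
              congr
              · rw [e2]
              · rw [e1]
            rw [add_mul, mul_add]
            simp only [mul_assoc]
          rw [← h4]
          exact hsum
        have h4 : P * (X * P ^ l) = 0 := ((c7 l hl _).1).1 h3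
        have h5 : P * X * P = 0 := ((c7 l hl _).2).1 (by rw [mul_assoc]; exact h4)
        have h6 : V * (X * P) = 0 := b6 _ (by rw [← mul_assoc]; exact h5)
        have h7 : star V * V * X * P = 0 := by
          simp only [mul_assoc]
          rw [h6, mul_zero]
        have h8 : star V * V * X * star V = 0 := b7 _ h7
        have h9 : star V * V * X * (star V * V) = 0 := by
          rw [← mul_assoc, h8, zero_mul]
        have hEP : star V * V * P ^ μ = P ^ μ := by
          have h10 : (star V * V - 1) * P ^ μ = 0 := by
            rw [(c7 μ hμ0 _).2, sub_mul, b4, one_mul, sub_self]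
          rw [sub_mul, one_mul, sub_eq_zero] at h10
          exact h10
        have hPE : P ^ μ * (star V * V) = P ^ μ := by
          have h10 : P ^ μ * (star V * V - 1) = 0 := by
            rw [(c7 μ hμ0 _).1, mul_sub, b5, mul_one, sub_self]
          rw [mul_sub, mul_one, sub_eq_zero] at h10
          exact h10
        set E := star V * V with hE
        set V1 := E * V * E with hV1
        have h10 : V1 * P ^ μ + P ^ μ * V1 = 0 := by
          have h11 : E * X * E = V1 * P ^ μ + P ^ μ * V1 := by
            rw [hX, hV1]
            rw [mul_add, add_mul]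
            congr 1
            · rw [mul_assoc (E * V) E, hEP, ← mul_assoc E V, mul_assoc (E * V), hPE]
            · rw [← mul_assoc E (P ^ μ), hEP, mul_assoc E V E, ← mul_assoc (P ^ μ) E, hPE,
                mul_assoc]
          rw [← h11]
          exact h9
        have hanti : V1 * P ^ μ = -(P ^ μ * V1) := eq_neg_of_add_eq_zero_left h10
        have h12 : Commute (P ^ (μ + μ)) V1 := by
          rw [← c4 μ μ hμ0 hμ0]
          show P ^ μ * P ^ μ * V1 = V1 * (P ^ μ * P ^ μ)
          rw [← mul_assoc V1, hanti, neg_mul, mul_assoc (P ^ μ) V1, hanti, mul_neg, neg_neg,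
            mul_assoc]
        have h13 : Commute P V1 := c10 (μ + μ) V1 (by linarith) h12
        have h14 : Commute (P ^ μ) V1 := c9 μ V1 h13
        have h15 : P ^ μ * V1 = 0 := by
          have h16 : V1 * P ^ μ = P ^ μ * V1 := h14.symm.eq
          rw [h16, ← two_smul ℂ] at h10
          rcases smul_eq_zero.1 h10 with h' | h'
          · norm_num at h'
          · exact h'
        have h17 : P * V1 = 0 := ((c7 μ hμ0 _).1).1 h15
        have h18 : P * V * E = 0 := by
          rw [hV1, mul_assoc E V E, ← mul_assoc P E, b5, ← mul_assoc] at h17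
          exact h17
        calc P * V * P = P * V * (E * P) := by rw [b4]
          _ = P * V * E * P := by rw [← mul_assoc]
          _ = 0 := by rw [h18, zero_mul]
    · intro h
      have k1 : ∀ a b : ℝ, 0 < a → 0 < b → P ^ a * V * P ^ b = 0 := by
        intro a b ha hb
        rw [(c7 b hb _).2, mul_assoc, (c7 a ha _).1, ← mul_assoc]
        exact h
      unfold mm
      rw [hal, hal', k1 l (1 - l) hl (by linarith), k1 (1 - l) l (by linarith) hl, add_zero,
        smul_zero]
  · intro T
    obtain ⟨P, V, hP, hV, b1, b2, b3, b4, b5, b6, b7, b8⟩ := main T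
    constructor
    · intro h
      unfold mean at h
      rw [← hP, ← hV] at h
      have h3 : T + P * V = 0 := by
        rcases smul_eq_zero.1 h with h' | h'
        · norm_num at h'
        · exact h'
      have h4 : T = -(P * V) := eq_neg_of_add_eq_zero_left h3
      have h5 : P = -(star V * P * V) := by
        conv_lhs => rw [b2, h4]
        rw [mul_neg, mul_assoc]
      have h6 : 0 ≤ star V * P * V := star_left_conjugate_nonneg b8 V
      have h7 : P = 0 := by
        apply le_antisymm _ b8
        rw [h5]
        exact neg_nonpos.2 h6
      rw [b1, h7, mul_zero]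
    · intro h
      subst h
      unfold mean
      rw [CFC.abs_zero, zero_mul, add_zero, smul_zero]
  · intro T
    obtain ⟨P, V, hP, hV, b1, b2, b3, b4, b5, b6, b7, b8⟩ := main T
    have h3 : (2 : ℂ) • mean T = T + P * V := by
      unfold mean
      rw [← hP, ← hV, smul_smul]
      norm_num
    rw [h3, add_eq_left, hTT T P V b1 b4]
    constructor
    · intro h
      rw [h, zero_mul]
    · intro h
      have h4 := b7 _ h
      calc P * V = P * (V * star V * V) := by rw [b3]
        _ = P * V * star V * V := by simp only [mul_assoc]
        _ = 0 := by rw [h4, zero_mul]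

end Pool.Agent.H37.MT
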